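import Pool.Agent.MWV.Stmts

/-!
# Squad MWV (MP_23468a_al), row CV2: exact covering
-/

set_option autoImplicit false

namespace Pool.Agent.MWV.H64

open Pool.Agent.Helper14_MV Pool.Agent.Helper2_MV Pool.Agent.MWV

theorem lgt_append (u v : List ℕ) : lgt (u ++ v) = lgt u ++ lgt v := List.filter_append ..

theorem lgt_heavy {u : List ℕ} (h : ∀ a ∈ u, a % 3 = 0) : lgt u = [] := by
  unfold lgt
  rw [List.filter_eq_nil_iff]
  intro a ha
  rw [decide_eq_true_iff]
  exact fun hn => hn (h a ha)

theorem lgt_im (N : ℕ) (f : ℕ → List ℕ) (μ : List ℕ) :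
    (∀ h ∈ μ, h % 3 = 0 → ∀ a ∈ f h, a % 3 = 0) →
    lgt (im N f μ) = (lgt μ).flatMap (fun a => lgt (f a)) := by
  induction μ with
  | nil => exact fun _ => rfl
  | cons c μ ih =>
    intro h
    have ih' := ih (fun a ha => h a (List.mem_cons_of_mem _ ha))
    have e : im N f (c :: μ) =
        (if c % 3 = 0 then (List.replicate (N + 1) (f c)).flatten else f c) ++ im N f μ := rfl
    rw [e, lgt_append, ih']
    by_cases hc : c % 3 = 0
    · have h1 : lgt (List.replicate (N + 1) (f c)).flatten = [] := by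
        refine lgt_heavy fun a ha => ?_
        rw [List.mem_flatten] at ha
        obtain ⟨l, hl, hal⟩ := ha
        rw [List.eq_of_mem_replicate hl] at hal
        exact h c List.mem_cons_self hc a hal
      have h2 : lgt (c :: μ) = lgt μ := by
        unfold lgt
        exact List.filter_cons_of_neg (by rw [decide_eq_true_iff]; exact fun hn => hn hc)
      rw [if_pos hc, h1, h2, List.nil_append]
    · have h2 : lgt (c :: μ) = c :: lgt μ := by
        unfold lgt
        exact List.filter_cons_of_pos (by rw [decide_eq_true_iff]; exact hc)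
      rw [if_neg hc, h2, List.flatMap_cons]

theorem len_flatMap (F : ℕ → List ℕ) (m : ℕ) :
    ((List.range m).flatMap F).length = ∑ i ∈ Finset.range m, (F i).length := by
  induction m with
  | zero => rfl
  | succ m ih =>
    rw [List.range_succ, List.flatMap_append, List.length_append, ih, Finset.sum_range_succ]
    simp

theorem flatMap_single {F : ℕ → List ℕ} {g : ℕ → ℕ} {m : ℕ} (h : ∀ i < m, F i = [g i]) :
    (List.range m).flatMap F = (List.range m).map g := by
  induction m with
  | zero => rfl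
  | succ m ih =>
    rw [List.range_succ, List.flatMap_append, List.map_append,
      ih (fun i hi => h i (by omega))]
    simp [h m (by omega)]

/-- **CV2** -/
theorem cv2 (pcs : PcsStmt) : Cv2Stmt := by
  intro N f k P' Q' m μ α1 γ1 d dm hN hperm hd hdm hFr hμ hcov
  have hnd : (P' ++ Q').Nodup := hperm.nodup_iff.2 List.nodup_range
  obtain ⟨p1, p2⟩ := pcs N f P' Q' m μ α1 γ1 hN hnd hFr
  have hmem : ∀ i < k + 2, 3 * (dm + i) + 1 ∈ μ := by
    intro i hi
    have h1 : 3 * (dm + i) + 1 ∈ lgt μ := by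
      rw [hμ]
      exact List.mem_map.2 ⟨i, List.mem_range.2 hi, rfl⟩
    exact List.mem_of_mem_filter h1
  have hpq : ∀ i < k + 2, dm + i ∈ P' ++ Q' := by
    intro i hi
    rw [hperm.mem_iff, List.mem_range]
    omega
  obtain ⟨F, hF⟩ : ∃ F : ℕ → List ℕ, ∀ i, F i = lgt (f (3 * (dm + i) + 1)) := ⟨_, fun _ => rfl⟩
  have hl : lgt (im N f μ) = (List.range (k + 2)).flatMap F := by
    rw [lgt_im N f μ p1, hμ, List.flatMap_map]
    exact List.flatMap_congr fun i _ => (hF i).symm
  have hcase : ∀ i < k + 2, F i = [] ∨ ∃ z, F i = [z] ∧ f (3 * (dm + i) + 1) = [z] ∧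
      ∃ w ∈ P' ++ Q', z = 3 * w + 1 ∧ (w ∈ Q' ↔ dm + i ∈ Q') := by
    intro i hi
    rcases List.eq_nil_or_concat (F i) with h0 | ⟨l, z, h0⟩
    · exact Or.inl h0
    · have hz : z ∈ F i := by rw [h0, List.concat_eq_append]; simp
      rw [hF] at hz
      unfold lgt at hz
      rw [List.mem_filter, decide_eq_true_iff] at hz
      obtain ⟨h1, h2⟩ := p2 (dm + i) (hpq i hi) (hmem i hi) z hz.1 hz.2
      refine Or.inr ⟨z, ?_, h1, h2⟩
      rw [hF, h1]
      unfold lgt
      exact List.filter_cons_of_pos (by rw [decide_eq_true_iff]; exact hz.2)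
  have hle : ∀ i ∈ Finset.range (k + 2), (F i).length ≤ 1 := by
    intro i hi
    rcases hcase i (Finset.mem_range.1 hi) with h | ⟨z, h, -⟩
    · rw [h]
      exact Nat.zero_le _
    · rw [h]
      exact le_rfl
  obtain ⟨D, hD⟩ : ∃ D : List ℕ, D = (List.range (k + 2)).map (fun i => 3 * (d + i) + 1) :=
    ⟨_, rfl⟩
  have hDn : D.Nodup := by
    rw [hD]
    refine List.Nodup.map ?_ List.nodup_range
    intro a b hab
    simp only at hab
    omega
  have hDl : D.length = k + 2 := by
    rw [hD, List.length_map, List.length_range]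
  have hsub : D ⊆ lgt (im N f μ) := by
    intro c hc
    rw [hD] at hc
    obtain ⟨i, hi, rfl⟩ := List.mem_map.1 hc
    have hi' := List.mem_range.1 hi
    unfold lgt
    rw [List.mem_filter, decide_eq_true_iff]
    exact ⟨hcov (d + i) (by omega) (by omega), by omega⟩
  have hlen : (lgt (im N f μ)).length ≤ k + 2 := by
    rw [hl, len_flatMap]
    calc ∑ i ∈ Finset.range (k + 2), (F i).length
        ≤ ∑ _i ∈ Finset.range (k + 2), 1 := Finset.sum_le_sum hle
      _ = k + 2 := by simp
  have hsp : D.Subperm (lgt (im N f μ)) := List.subperm_of_subset hDn hsub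
  have hpD : D.Perm (lgt (im N f μ)) := hsp.perm_of_length_le (by rw [hDl]; exact hlen)
  have hsum : ∑ i ∈ Finset.range (k + 2), (F i).length = k + 2 := by
    rw [← len_flatMap, ← hl, ← hpD.length_eq, hDl]
  have hone : ∀ i < k + 2, F i ≠ [] := by
    intro i hi h0
    have h1 : ∑ i ∈ Finset.range (k + 2), (F i).length < ∑ _i ∈ Finset.range (k + 2), 1 :=
      Finset.sum_lt_sum hle ⟨i, Finset.mem_range.2 hi, by rw [h0]; exact Nat.zero_lt_one⟩
    rw [hsum] at h1
    simp at h1
  have hz : ∀ i, ∃ z, i < k + 2 → F i = [3 * z + 1] ∧ f (3 * (dm + i) + 1) = [3 * z + 1] ∧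
      (z ∈ Q' ↔ dm + i ∈ Q') := by
    intro i
    by_cases hi : i < k + 2
    · rcases hcase i hi with h | ⟨z, h1, h2, w, -, rfl, h3⟩
      · exact absurd h (hone i hi)
      · exact ⟨w, fun _ => ⟨h1, h2, h3⟩⟩
    · exact ⟨0, fun h => absurd h hi⟩
  choose ζ hζ using hz
  have hlm : lgt (im N f μ) = (List.range (k + 2)).map (fun i => 3 * ζ i + 1) := by
    rw [hl]
    exact flatMap_single fun i hi => (hζ i hi).1
  have hrange : ∀ i < k + 2, d ≤ ζ i ∧ ζ i ≤ k + 1 + d := by
    intro i hi
    have h1 : 3 * ζ i + 1 ∈ D := by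
      rw [hpD.mem_iff, hlm]
      exact List.mem_map.2 ⟨i, List.mem_range.2 hi, rfl⟩
    rw [hD] at h1
    obtain ⟨j, hj, h2⟩ := List.mem_map.1 h1
    have := List.mem_range.1 hj
    omega
  refine ⟨ζ, fun i hi => ⟨(hζ i hi).2.1, (hζ i hi).2.2, hrange i hi⟩, hlm, ?_, ?_⟩
  · intro j h1 h2
    have h3 : 3 * j + 1 ∈ lgt (im N f μ) := by
      rw [← hpD.mem_iff, hD]
      refine List.mem_map.2 ⟨j - d, List.mem_range.2 (by omega), ?_⟩
      have : d + (j - d) = j := by omega
      rw [this]
    rw [hlm] at h3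
    obtain ⟨i, hi, h4⟩ := List.mem_map.1 h3
    exact ⟨i, List.mem_range.1 hi, by omega⟩
  · intro i hi j hj hij
    have h1 : ((List.range (k + 2)).map (fun i => 3 * ζ i + 1)).Nodup := by
      rw [← hlm]
      exact hpD.nodup_iff.1 hDn
    exact List.inj_on_of_nodup_map h1 (List.mem_range.2 hi) (List.mem_range.2 hj)
      (by simp only [hij])

end Pool.Agent.MWV.H64
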